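import Mathlib

set_option autoImplicit false

section

open MeasureTheory Set Filter Topology
open scoped BoundedContinuousFunction NNReal

namespace Pool.Agent.Results.MP_32f877_an.BoundedVolume.Chazy

variable {E : Type*} [NormedAddCommGroup E] [NormedSpace ℝ E] [CompleteSpace E]

theorem hasDerivAt_Ioi (f : ℝ → E) (c t : ℝ) (hct : c < t) (hf : ContinuousOn f (Ioi c))
    (hint : IntegrableOn f (Ioi c)) : HasDerivAt (fun t => ∫ s in Ioi t, f s) (-(f t)) t := by
  have hcont : ContinuousAt f t := hf.continuousAt (Ioi_mem_nhds hct)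
  have h1 : HasDerivAt (fun x => ∫ s in c..x, f s) (f t) t := by
    apply intervalIntegral.integral_hasDerivAt_right
    · rw [intervalIntegrable_iff_integrableOn_Ioc_of_le hct.le]
      exact hint.mono_set Ioc_subset_Ioi_self
    · exact hf.stronglyMeasurableAtFilter isOpen_Ioi t hct
    · exact hcont
  have h2 : (fun x => ∫ s in Ioi x, f s) =ᶠ[𝓝 t]
      fun x => (∫ s in Ioi c, f s) - ∫ s in c..x, f s := by
    filter_upwards [Ioi_mem_nhds hct] with x hx
    have := intervalIntegral.integral_interval_add_Ioi hint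
      (hint.mono_set (Ioi_subset_Ioi (le_of_lt hx)))
    rw [← this]
    simp
  have h3 := (hasDerivAt_const t (∫ s in Ioi c, f s)).sub h1
  rw [zero_sub] at h3
  exact h3.congr_of_eventuallyEq h2

/-- tail integral of G and of s G -/
noncomputable def tailA (G : ℝ → E) (t : ℝ) : E := ∫ s in Ioi t, G s
noncomputable def tailB (G : ℝ → E) (t : ℝ) : E := ∫ s in Ioi t, s • G s

theorem int_G (G : ℝ → E) (c M : ℝ) (hc : 0 < c) (hG : ContinuousOn G (Ioi c))
    (hM : ∀ s, c < s → ‖G s‖ ≤ M * s ^ (-(5 : ℝ) / 2)) : IntegrableOn G (Ioi c) := by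
  have h1 : IntegrableOn (fun s : ℝ => M * s ^ (-(5 : ℝ) / 2)) (Ioi c) :=
    (integrableOn_Ioi_rpow_of_lt (by norm_num) hc).const_mul M
  refine Integrable.mono' h1 (hG.aestronglyMeasurable measurableSet_Ioi) ?_
  filter_upwards [ae_restrict_mem measurableSet_Ioi] with s hs
  exact hM s hs

theorem int_sG (G : ℝ → E) (c M : ℝ) (hc : 0 < c) (hG : ContinuousOn G (Ioi c))
    (hM : ∀ s, c < s → ‖G s‖ ≤ M * s ^ (-(5 : ℝ) / 2)) :
    IntegrableOn (fun s => s • G s) (Ioi c) := by
  have h1 : IntegrableOn (fun s : ℝ => M * s ^ (-(3 : ℝ) / 2)) (Ioi c) :=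
    (integrableOn_Ioi_rpow_of_lt (by norm_num) hc).const_mul M
  refine Integrable.mono' h1
    ((continuousOn_id.smul hG).aestronglyMeasurable measurableSet_Ioi) ?_
  filter_upwards [ae_restrict_mem measurableSet_Ioi] with s hs
  have hs0 : 0 < s := hc.trans hs
  rw [norm_smul, Real.norm_of_nonneg hs0.le]
  calc s * ‖G s‖ ≤ s * (M * s ^ (-(5 : ℝ) / 2)) :=
        mul_le_mul_of_nonneg_left (hM s hs) hs0.le
    _ = M * (s ^ (1 : ℝ) * s ^ (-(5 : ℝ) / 2)) := by rw [Real.rpow_one]; ring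
    _ = M * s ^ (-(3 : ℝ) / 2) := by
        rw [← Real.rpow_add hs0]; norm_num

theorem tail_eq (G : ℝ → E) (c M : ℝ) (hc : 0 < c) (hG : ContinuousOn G (Ioi c))
    (hM : ∀ s, c < s → ‖G s‖ ≤ M * s ^ (-(5 : ℝ) / 2)) (t : ℝ) (ht : c ≤ t) :
    tailB G t - t • tailA G t = ∫ s in Ioi t, (s - t) • G s := by
  unfold tailA tailB
  have h1 := (int_G G c M hc hG hM).mono_set (Ioi_subset_Ioi ht)
  have h2 := (int_sG G c M hc hG hM).mono_set (Ioi_subset_Ioi ht)
  have h3 : IntegrableOn (fun s => t • G s) (Ioi t) := h1.smul t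
  rw [← integral_smul, ← integral_sub h2 h3]
  simp only [sub_smul]

theorem tail_norm (G : ℝ → E) (c M : ℝ) (hc : 0 < c) (hG : ContinuousOn G (Ioi c))
    (hM : ∀ s, c < s → ‖G s‖ ≤ M * s ^ (-(5 : ℝ) / 2)) (t : ℝ) (ht : c ≤ t) :
    ‖tailB G t - t • tailA G t‖ ≤ 2 * M * t ^ (-(1 : ℝ) / 2) := by
  have ht0 : 0 < t := hc.trans_le ht
  rw [tail_eq G c M hc hG hM t ht]
  have h1 : IntegrableOn (fun s : ℝ => M * s ^ (-(3 : ℝ) / 2)) (Ioi t) :=
    (integrableOn_Ioi_rpow_of_lt (by norm_num) ht0).const_mul M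
  have h2 : ‖∫ s in Ioi t, (s - t) • G s‖ ≤ ∫ s in Ioi t, M * s ^ (-(3 : ℝ) / 2) := by
    refine norm_integral_le_of_norm_le h1 ?_
    filter_upwards [ae_restrict_mem measurableSet_Ioi] with s hs
    have hts : t < s := hs
    have hs0 : 0 < s := ht0.trans hts
    have hcs : c < s := lt_of_le_of_lt ht hts
    rw [norm_smul, Real.norm_of_nonneg (by linarith)]
    have hG0 := hM s hcs
    calc (s - t) * ‖G s‖ ≤ s * (M * s ^ (-(5 : ℝ) / 2)) :=
          mul_le_mul (by linarith) hG0 (norm_nonneg _) hs0.le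
      _ = M * (s ^ (1 : ℝ) * s ^ (-(5 : ℝ) / 2)) := by rw [Real.rpow_one]; ring
      _ = M * s ^ (-(3 : ℝ) / 2) := by
          rw [← Real.rpow_add hs0]; norm_num
  refine h2.trans (le_of_eq ?_)
  rw [integral_const_mul, integral_Ioi_rpow_of_lt (by norm_num) ht0]
  norm_num
  ring

theorem tailA_norm (G : ℝ → E) (c M : ℝ) (hc : 0 < c)
    (hM : ∀ s, c < s → ‖G s‖ ≤ M * s ^ (-(5 : ℝ) / 2)) (t : ℝ) (ht : c ≤ t) :
    ‖tailA G t‖ ≤ M * t ^ (-(3 : ℝ) / 2) := by
  have ht0 : 0 < t := hc.trans_le ht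
  have hM0 : 0 ≤ M := by
    have h1 := hM (c + 1) (by linarith)
    have h2 : 0 < (c + 1) ^ (-(5 : ℝ) / 2) := Real.rpow_pos_of_pos (by linarith) _
    by_contra hneg
    push Not at hneg
    have h3 : M * (c + 1) ^ (-(5 : ℝ) / 2) < 0 := mul_neg_of_neg_of_pos hneg h2
    linarith [norm_nonneg (G (c + 1))]
  have h1 : IntegrableOn (fun s : ℝ => M * s ^ (-(5 : ℝ) / 2)) (Ioi t) :=
    (integrableOn_Ioi_rpow_of_lt (by norm_num) ht0).const_mul M
  have h2 : ‖tailA G t‖ ≤ ∫ s in Ioi t, M * s ^ (-(5 : ℝ) / 2) := by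
    refine norm_integral_le_of_norm_le h1 ?_
    filter_upwards [ae_restrict_mem measurableSet_Ioi] with s hs
    exact hM s (lt_of_le_of_lt ht hs)
  refine h2.trans ?_
  rw [integral_const_mul, integral_Ioi_rpow_of_lt (by norm_num) ht0]
  have h3 : 0 < t ^ (-(3 : ℝ) / 2) := Real.rpow_pos_of_pos ht0 _
  have h4 : (-(5 : ℝ) / 2 + 1) = -(3 : ℝ) / 2 := by norm_num
  rw [h4]
  have h5 : -t ^ (-(3 : ℝ) / 2) / (-(3 : ℝ) / 2) = (2 / 3) * t ^ (-(3 : ℝ) / 2) := by ring
  rw [h5]
  nlinarith [mul_nonneg hM0 h3.le]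

theorem tail_diff (G1 G2 : ℝ → E) (c M N : ℝ) (hc : 0 < c) (hG1 : ContinuousOn G1 (Ioi c))
    (hG2 : ContinuousOn G2 (Ioi c))
    (hM1 : ∀ s, c < s → ‖G1 s‖ ≤ M * s ^ (-(5 : ℝ) / 2))
    (hM2 : ∀ s, c < s → ‖G2 s‖ ≤ M * s ^ (-(5 : ℝ) / 2))
    (hN : ∀ s, c < s → ‖G1 s - G2 s‖ ≤ N * s ^ (-(3 : ℝ))) (t : ℝ) (ht : c ≤ t) :
    ‖(tailB G1 t - t • tailA G1 t) - (tailB G2 t - t • tailA G2 t)‖ ≤ N * t⁻¹ := by
  have ht0 : 0 < t := hc.trans_le ht
  rw [tail_eq G1 c M hc hG1 hM1 t ht, tail_eq G2 c M hc hG2 hM2 t ht]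
  have i1 : IntegrableOn (fun s => (s - t) • G1 s) (Ioi t) := by
    have h1 := (int_G G1 c M hc hG1 hM1).mono_set (Ioi_subset_Ioi ht)
    have h2 := (int_sG G1 c M hc hG1 hM1).mono_set (Ioi_subset_Ioi ht)
    have := h2.sub (h1.smul t)
    refine this.congr (Eventually.of_forall fun s => ?_)
    simp [sub_smul]
  have i2 : IntegrableOn (fun s => (s - t) • G2 s) (Ioi t) := by
    have h1 := (int_G G2 c M hc hG2 hM2).mono_set (Ioi_subset_Ioi ht)
    have h2 := (int_sG G2 c M hc hG2 hM2).mono_set (Ioi_subset_Ioi ht)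
    have := h2.sub (h1.smul t)
    refine this.congr (Eventually.of_forall fun s => ?_)
    simp [sub_smul]
  rw [← integral_sub i1 i2]
  have h1 : IntegrableOn (fun s : ℝ => N * s ^ (-(2 : ℝ))) (Ioi t) :=
    (integrableOn_Ioi_rpow_of_lt (by norm_num) ht0).const_mul N
  have h2 : ‖∫ s in Ioi t, ((s - t) • G1 s - (s - t) • G2 s)‖ ≤ ∫ s in Ioi t, N * s ^ (-(2 : ℝ)) := by
    refine norm_integral_le_of_norm_le h1 ?_
    filter_upwards [ae_restrict_mem measurableSet_Ioi] with s hs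
    have hts : t < s := hs
    have hs0 : 0 < s := ht0.trans hts
    have hcs : c < s := lt_of_le_of_lt ht hts
    rw [← smul_sub, norm_smul, Real.norm_of_nonneg (by linarith)]
    calc (s - t) * ‖G1 s - G2 s‖ ≤ s * (N * s ^ (-(3 : ℝ))) :=
          mul_le_mul (by linarith) (hN s hcs) (norm_nonneg _) hs0.le
      _ = N * (s ^ (1 : ℝ) * s ^ (-(3 : ℝ))) := by rw [Real.rpow_one]; ring
      _ = N * s ^ (-(2 : ℝ)) := by
          rw [← Real.rpow_add hs0]; norm_num
  refine h2.trans (le_of_eq ?_)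
  rw [integral_const_mul, integral_Ioi_rpow_of_lt (by norm_num) ht0]
  have h4 : (-(2 : ℝ) + 1) = -1 := by norm_num
  rw [h4, Real.rpow_neg_one]
  ring

theorem tail_deriv (G : ℝ → E) (c M : ℝ) (hc : 0 < c) (hG : ContinuousOn G (Ioi c))
    (hM : ∀ s, c < s → ‖G s‖ ≤ M * s ^ (-(5 : ℝ) / 2)) (t : ℝ) (ht : c < t) :
    HasDerivAt (fun t => tailB G t - t • tailA G t) (-(tailA G t)) t ∧
    HasDerivAt (fun t => -(tailA G t)) (G t) t := by
  have hA := hasDerivAt_Ioi G c t ht hG (int_G G c M hc hG hM)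
  have hB := hasDerivAt_Ioi (fun s => s • G s) c t ht (continuousOn_id.smul hG)
    (int_sG G c M hc hG hM)
  constructor
  · have h1 := hB.sub ((hasDerivAt_id t).smul hA)
    refine h1.congr_deriv ?_
    simp [tailA]
  · have h1 := hA.neg
    refine h1.congr_deriv ?_
    simp

/-- perturbation field in the integral equation -/
noncomputable def gf (F : E → E) (a k : E) (w : ℝ → E) (s : ℝ) : E :=
  (s ^ 2)⁻¹ • (F (a + s⁻¹ • (-(Real.log s) • F a + k + w s)) - F a)

omit [CompleteSpace E] in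
theorem arg_bound (Fa k w : E) (C0 s : ℝ) (hs : 1 ≤ s) (hC0 : C0 = 2 * ‖Fa‖ + ‖k‖ + 1)
    (hw : ‖w‖ ≤ 1) :
    ‖s⁻¹ • (-(Real.log s) • Fa + k + w)‖ ≤ C0 * s ^ (-(1 : ℝ) / 2) := by
  have hs0 : 0 < s := by linarith
  have h1 : Real.log s ≤ 2 * s ^ ((1 : ℝ) / 2) := by
    have := Real.log_le_rpow_div hs0.le (by norm_num : (0 : ℝ) < 1 / 2)
    linarith
  have h2 : 0 ≤ Real.log s := Real.log_nonneg hs
  have h3 : 1 ≤ s ^ ((1 : ℝ) / 2) := Real.one_le_rpow hs (by norm_num)
  have h4 : ‖-(Real.log s) • Fa + k + w‖ ≤ C0 * s ^ ((1 : ℝ) / 2) := by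
    calc ‖-(Real.log s) • Fa + k + w‖ ≤ ‖-(Real.log s) • Fa‖ + ‖k‖ + ‖w‖ := norm_add₃_le
      _ = Real.log s * ‖Fa‖ + ‖k‖ + ‖w‖ := by
        rw [norm_smul, Real.norm_eq_abs, abs_neg, abs_of_nonneg h2]
      _ ≤ 2 * s ^ ((1 : ℝ) / 2) * ‖Fa‖ + ‖k‖ * s ^ ((1 : ℝ) / 2) + 1 * s ^ ((1 : ℝ) / 2) := by
        apply add_le_add
        · apply add_le_add
          · exact mul_le_mul_of_nonneg_right h1 (norm_nonneg _)
          · exact le_mul_of_one_le_right (norm_nonneg _) h3
        · linarith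
      _ = C0 * s ^ ((1 : ℝ) / 2) := by rw [hC0]; ring
  rw [norm_smul, Real.norm_eq_abs, abs_of_pos (by positivity)]
  calc s⁻¹ * ‖-(Real.log s) • Fa + k + w‖ ≤ s⁻¹ * (C0 * s ^ ((1 : ℝ) / 2)) :=
        mul_le_mul_of_nonneg_left h4 (by positivity)
    _ = C0 * (s ^ (-(1 : ℝ)) * s ^ ((1 : ℝ) / 2)) := by rw [Real.rpow_neg_one]; ring
    _ = C0 * s ^ (-(1 : ℝ) / 2) := by
        rw [← Real.rpow_add hs0]; norm_num

theorem chazy (F : E → E) (a k : E) (δ : ℝ) (hδ : 0 < δ) (K : ℝ≥0)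
    (hLip : LipschitzOnWith K F (Metric.closedBall a δ))
    (hhom : ∀ s : ℝ, 0 < s → ∀ x ∈ Metric.closedBall a δ, F (s • x) = (s ^ 2)⁻¹ • F x) :
    ∃ T C : ℝ, 1 ≤ T ∧ 0 < C ∧ ∃ w y : ℝ → E,
      (∀ t, T < t → HasDerivAt w (y t) t) ∧
      (∀ t, T < t → HasDerivAt y
        (F (t • a + -(Real.log t) • F a + k + w t) - (t ^ 2)⁻¹ • F a) t) ∧
      (∀ t, T < t → ‖w t‖ ≤ C * t ^ (-(1 : ℝ) / 2)) ∧
      (∀ t, T < t → ‖y t‖ ≤ C * t ^ (-(3 : ℝ) / 2)) ∧
      (∀ t, T < t → a + t⁻¹ • (-(Real.log t) • F a + k + w t) ∈ Metric.closedBall a δ) := by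
  set C0 : ℝ := 2 * ‖F a‖ + ‖k‖ + 1 with hC0
  have C0pos : 0 < C0 := by positivity
  set T0 : ℝ := max 1 ((C0 / δ) ^ 2) with hT0
  have T0one : 1 ≤ T0 := le_max_left _ _
  have T0pos : 0 < T0 := by linarith
  -- arguments stay in the ball
  have inball : ∀ (s : ℝ) (w : E), T0 ≤ s → ‖w‖ ≤ 1 →
      a + s⁻¹ • (-(Real.log s) • F a + k + w) ∈ Metric.closedBall a δ := by
    intro s w hs hw
    have hs1 : 1 ≤ s := T0one.trans hs
    have hs0 : 0 < s := by linarith
    rw [mem_closedBall_iff_norm, add_sub_cancel_left]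
    refine (arg_bound (F a) k w C0 s hs1 hC0 hw).trans ?_
    have h1 : (C0 / δ) ^ 2 ≤ s := (le_max_right _ _).trans hs
    have h2 : C0 / δ ≤ s ^ ((1 : ℝ) / 2) := by
      rw [← Real.sqrt_eq_rpow]
      exact Real.le_sqrt_of_sq_le h1
    have h3 : 0 < s ^ ((1 : ℝ) / 2) := Real.rpow_pos_of_pos hs0 _
    have h4 : s ^ (-(1 : ℝ) / 2) = (s ^ ((1 : ℝ) / 2))⁻¹ := by
      rw [← Real.rpow_neg hs0.le]; norm_num
    rw [h4, ← div_eq_mul_inv, div_le_iff₀ h3]
    rw [div_le_iff₀ hδ] at h2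
    linarith
  set M : ℝ := K * C0 with hM
  have M0 : 0 ≤ M := by positivity
  set T : ℝ := max (T0 + 1) (max (4 * M ^ 2 + 1) (2 * K + 1)) with hT
  have TT0 : T0 < T := by
    have : T0 + 1 ≤ T := le_max_left _ _
    linarith
  have T1 : 1 ≤ T := by linarith
  have Tpos : 0 < T := by linarith
  have TM : 4 * M ^ 2 ≤ T := by
    have : 4 * M ^ 2 + 1 ≤ T := (le_max_left _ _).trans (le_max_right _ _)
    linarith
  have TK : 2 * K ≤ T := by
    have : 2 * (K : ℝ) + 1 ≤ T := (le_max_right _ _).trans (le_max_right _ _)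
    linarith
  -- bound and continuity of G
  have Gb : ∀ (w : ℝ → E), (∀ s, ‖w s‖ ≤ 1) → ∀ s, T0 < s →
      ‖gf F a k w s‖ ≤ M * s ^ (-(5 : ℝ) / 2) := by
    intro w hw s hs
    have hs1 : 1 ≤ s := T0one.trans hs.le
    have hs0 : 0 < s := by linarith
    unfold gf
    rw [norm_smul, Real.norm_eq_abs, abs_of_pos (by positivity)]
    have h1 := hLip.norm_sub_le (inball s (w s) hs.le (hw s)) (Metric.mem_closedBall_self hδ.le)
    rw [add_sub_cancel_left] at h1
    have h2 := arg_bound (F a) k (w s) C0 s hs1 hC0 (hw s)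
    calc (s ^ 2)⁻¹ * ‖F (a + s⁻¹ • (-(Real.log s) • F a + k + w s)) - F a‖
        ≤ (s ^ 2)⁻¹ * (K * (C0 * s ^ (-(1 : ℝ) / 2))) := by
          apply mul_le_mul_of_nonneg_left _ (by positivity)
          exact h1.trans (mul_le_mul_of_nonneg_left h2 K.coe_nonneg)
      _ = M * (s ^ (-(2 : ℝ)) * s ^ (-(1 : ℝ) / 2)) := by
          rw [Real.rpow_neg hs0.le, Real.rpow_two]; ring
      _ = M * s ^ (-(5 : ℝ) / 2) := by
          rw [← Real.rpow_add hs0]; norm_num
  have Gc : ∀ (w : ℝ → E), Continuous w → (∀ s, ‖w s‖ ≤ 1) →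
      ContinuousOn (gf F a k w) (Ioi T0) := by
    intro w hwc hw
    unfold gf
    have hne : ∀ s ∈ Ioi T0, s ≠ 0 := fun s hs => (T0pos.trans hs).ne'
    refine ContinuousOn.smul ?_ ?_
    · exact ContinuousOn.inv₀ (continuousOn_id.pow 2) (fun s hs => pow_ne_zero 2 (hne s hs))
    · refine ContinuousOn.sub ?_ continuousOn_const
      refine hLip.continuousOn.comp ?_ (fun s hs => inball s (w s) (le_of_lt hs) (hw s))
      refine continuousOn_const.add (ContinuousOn.smul (continuousOn_id.inv₀ hne) ?_)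
      refine ((ContinuousOn.smul ?_ continuousOn_const).add continuousOn_const).add hwc.continuousOn
      exact (Real.continuousOn_log.mono (fun s hs => hne s hs)).neg
  -- the operator on the closed unit ball of bounded continuous functions
  set B : Set (ℝ →ᵇ E) := Metric.closedBall 0 1 with hB
  have Bw : ∀ w : B, ∀ s, ‖(w : ℝ →ᵇ E) s‖ ≤ 1 := by
    intro w s
    have h1 : ‖(w : ℝ →ᵇ E)‖ ≤ 1 := mem_closedBall_zero_iff.mp w.2
    exact ((w : ℝ →ᵇ E).norm_coe_le_norm s).trans h1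
  set Phi : (ℝ → E) → ℝ → E := fun w t =>
    tailB (gf F a k w) (max t T) - (max t T) • tailA (gf F a k w) (max t T) with hPhi
  have Phi_bd : ∀ (w : ℝ → E), Continuous w → (∀ s, ‖w s‖ ≤ 1) → ∀ t, ‖Phi w t‖ ≤ 1 := by
    intro w hwc hw t
    have hmx : T ≤ max t T := le_max_right _ _
    have h1 := tail_norm (gf F a k w) T0 M T0pos (Gc w hwc hw) (Gb w hw) (max t T)
      (TT0.le.trans hmx)
    refine h1.trans ?_
    have h2 : 0 < max t T := Tpos.trans_le hmx
    have h3 : 2 * M ≤ (max t T) ^ ((1 : ℝ) / 2) := by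
      rw [← Real.sqrt_eq_rpow]
      apply Real.le_sqrt_of_sq_le
      calc (2 * M) ^ 2 = 4 * M ^ 2 := by ring
        _ ≤ max t T := TM.trans hmx
    have h4 : (max t T) ^ (-(1 : ℝ) / 2) = ((max t T) ^ ((1 : ℝ) / 2))⁻¹ := by
      rw [← Real.rpow_neg h2.le]; norm_num
    rw [h4, ← div_eq_mul_inv, div_le_one (Real.rpow_pos_of_pos h2 _)]
    exact h3
  have Phi_ct : ∀ (w : ℝ → E), Continuous w → (∀ s, ‖w s‖ ≤ 1) → Continuous (Phi w) := by
    intro w hwc hw
    rw [continuous_iff_continuousAt]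
    intro t
    have hmx : T ≤ max t T := le_max_right _ _
    have h1 := (tail_deriv (gf F a k w) T0 M T0pos (Gc w hwc hw) (Gb w hw) (max t T)
      (lt_of_lt_of_le TT0 hmx)).1.continuousAt
    have h2 : ContinuousAt (fun t => max t T) t := (continuous_id.max continuous_const).continuousAt
    exact ContinuousAt.comp (f := fun t => max t T)
      (g := fun t => tailB (gf F a k w) t - t • tailA (gf F a k w) t) h1 h2
  set Psi : B → B := fun w =>
    ⟨BoundedContinuousFunction.ofNormedAddCommGroup (Phi (w : ℝ →ᵇ E))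
      (Phi_ct _ (w : ℝ →ᵇ E).continuous (Bw w)) 1
      (Phi_bd _ (w : ℝ →ᵇ E).continuous (Bw w)), by
      refine mem_closedBall_zero_iff.mpr ?_
      exact BoundedContinuousFunction.norm_ofNormedAddCommGroup_le _ (by norm_num) _⟩ with hPsi
  have contr : ContractingWith (1 / 2) Psi := by
    refine ⟨by norm_num, LipschitzWith.of_dist_le_mul ?_⟩
    intro w1 w2
    rw [Subtype.dist_eq, BoundedContinuousFunction.dist_le (by positivity)]
    intro t
    have hmx : T ≤ max t T := le_max_right _ _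
    have hd : ∀ s, ‖(w1 : ℝ →ᵇ E) s - (w2 : ℝ →ᵇ E) s‖ ≤ dist w1 w2 := by
      intro s
      rw [← dist_eq_norm, Subtype.dist_eq]
      exact BoundedContinuousFunction.dist_coe_le_dist s
    have hG : ∀ s, T0 < s → ‖gf F a k (w1 : ℝ →ᵇ E) s - gf F a k (w2 : ℝ →ᵇ E) s‖
        ≤ (K * dist w1 w2) * s ^ (-(3 : ℝ)) := by
      intro s hs
      have hs0 : 0 < s := T0pos.trans hs
      unfold gf
      rw [← smul_sub, sub_sub_sub_cancel_right, norm_smul, Real.norm_eq_abs,
        abs_of_pos (by positivity)]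
      have h1 := hLip.norm_sub_le (inball s _ hs.le (Bw w1 s)) (inball s _ hs.le (Bw w2 s))
      have h2 : (a + s⁻¹ • (-(Real.log s) • F a + k + (w1 : ℝ →ᵇ E) s))
          - (a + s⁻¹ • (-(Real.log s) • F a + k + (w2 : ℝ →ᵇ E) s))
          = s⁻¹ • ((w1 : ℝ →ᵇ E) s - (w2 : ℝ →ᵇ E) s) := by
        rw [add_sub_add_left_eq_sub, ← smul_sub, add_sub_add_left_eq_sub]
      rw [h2, norm_smul, Real.norm_eq_abs, abs_of_pos (by positivity)] at h1
      calc (s ^ 2)⁻¹ * _ ≤ (s ^ 2)⁻¹ * (K * (s⁻¹ * dist w1 w2)) := by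
            apply mul_le_mul_of_nonneg_left _ (by positivity)
            refine h1.trans ?_
            apply mul_le_mul_of_nonneg_left _ K.coe_nonneg
            exact mul_le_mul_of_nonneg_left (hd s) (by positivity)
        _ = (K * dist w1 w2) * s ^ (-(3 : ℝ)) := by
            rw [Real.rpow_neg hs0.le]
            have : s ^ (3 : ℝ) = s ^ 3 := by
              rw [← Real.rpow_natCast]; norm_num
            rw [this]
            field_simp
    have h3 := tail_diff (gf F a k (w1 : ℝ →ᵇ E)) (gf F a k (w2 : ℝ →ᵇ E)) T0 M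
      (K * dist w1 w2) T0pos (Gc _ (w1 : ℝ →ᵇ E).continuous (Bw w1))
      (Gc _ (w2 : ℝ →ᵇ E).continuous (Bw w2)) (Gb _ (Bw w1)) (Gb _ (Bw w2)) hG (max t T)
      (TT0.le.trans hmx)
    rw [dist_eq_norm]
    refine h3.trans ?_
    have h4 : 0 < max t T := Tpos.trans_le hmx
    rw [← div_eq_mul_inv, div_le_iff₀ h4]
    have h5 : (0 : ℝ) ≤ dist w1 w2 := dist_nonneg
    have h6 : 2 * (K : ℝ) ≤ max t T := TK.trans hmx
    have h7 : ((1 / 2 : ℝ≥0) : ℝ) = 1 / 2 := by norm_num
    rw [h7]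
    nlinarith
  haveI : CompleteSpace B := (Metric.isClosed_closedBall.isComplete).completeSpace_coe
  haveI : Nonempty B := ⟨⟨0, by rw [hB]; exact Metric.mem_closedBall_self (by norm_num)⟩⟩
  obtain ⟨w, hw, _⟩ := contr.exists_fixedPoint (Classical.arbitrary B) (edist_ne_top _ _)
  have hfix : ∀ t, (w : ℝ →ᵇ E) t = Phi (w : ℝ →ᵇ E) t := by
    intro t
    have h1 : Psi w = w := hw
    have h2 : ((Psi w : B) : ℝ →ᵇ E) t = (w : ℝ →ᵇ E) t := by rw [h1]
    rw [← h2]
    rfl
  set w0 : ℝ → E := fun t => (w : ℝ →ᵇ E) t with hw0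
  have w0c : Continuous w0 := (w : ℝ →ᵇ E).continuous
  have w0b : ∀ s, ‖w0 s‖ ≤ 1 := Bw w
  have hfix' : ∀ t, T ≤ t → w0 t = tailB (gf F a k w0) t - t • tailA (gf F a k w0) t := by
    intro t ht
    have := hfix t
    simp only [hPhi, max_eq_left ht] at this
    exact this
  refine ⟨T, 2 * M + 1, T1, by positivity, w0, fun t => -(tailA (gf F a k w0) t), ?_, ?_, ?_, ?_, ?_⟩
  · intro t ht
    have h1 := (tail_deriv (gf F a k w0) T0 M T0pos (Gc w0 w0c w0b) (Gb w0 w0b) t
      (TT0.trans ht)).1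
    refine h1.congr_of_eventuallyEq ?_
    filter_upwards [Ioi_mem_nhds ht] with s hs
    exact hfix' s (le_of_lt hs)
  · intro t ht
    have h1 := (tail_deriv (gf F a k w0) T0 M T0pos (Gc w0 w0c w0b) (Gb w0 w0b) t
      (TT0.trans ht)).2
    refine h1.congr_deriv ?_
    have ht0 : 0 < t := Tpos.trans ht
    have hin := inball t (w0 t) (TT0.le.trans ht.le) (w0b t)
    have h2 := hhom t ht0 _ hin
    have h3 : t • (a + t⁻¹ • (-(Real.log t) • F a + k + w0 t))
        = t • a + -(Real.log t) • F a + k + w0 t := by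
      rw [smul_add, smul_smul, mul_inv_cancel₀ ht0.ne', one_smul]
      abel
    rw [h3] at h2
    rw [h2]
    unfold gf
    rw [smul_sub]
  · intro t ht
    have ht0 : 0 < t := Tpos.trans ht
    rw [hfix' t ht.le]
    refine (tail_norm (gf F a k w0) T0 M T0pos (Gc w0 w0c w0b) (Gb w0 w0b) t
      (TT0.le.trans ht.le)).trans ?_
    apply mul_le_mul_of_nonneg_right (by linarith) (Real.rpow_nonneg ht0.le _)
  · intro t ht
    have ht0 : 0 < t := Tpos.trans ht
    rw [norm_neg]
    refine (tailA_norm (gf F a k w0) T0 M T0pos (Gb w0 w0b) t (TT0.le.trans ht.le)).trans ?_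
    apply mul_le_mul_of_nonneg_right (by linarith) (Real.rpow_nonneg ht0.le _)
  · intro t ht
    exact inball t (w0 t) (TT0.le.trans ht.le) (w0b t)

end Pool.Agent.Results.MP_32f877_an.BoundedVolume.Chazy

end

section

open Set Filter Topology
open scoped NNReal

namespace Pool.Agent.Results.MP_32f877_an.BoundedVolume.Vol

/-- space -/
abbrev R3 := EuclideanSpace ℝ (Fin 3)

/-- accelerations of the four-body problem -/
noncomputable def acc (m : Fin 4 → ℝ) (q : Fin 4 → R3) (i : Fin 4) : R3 :=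
  ∑ j, (m j / ‖q j - q i‖ ^ 3) • (q j - q i)

theorem acc_hom (m : Fin 4 → ℝ) (s : ℝ) (hs : 0 < s) (x : Fin 4 → R3) :
    acc m (s • x) = (s ^ 2)⁻¹ • acc m x := by
  funext i
  simp only [acc, Pi.smul_apply, Finset.smul_sum]
  refine Finset.sum_congr rfl fun j _ => ?_
  rw [← smul_sub, norm_smul, Real.norm_of_nonneg hs.le, smul_smul, smul_smul]
  congr 1
  by_cases h : ‖x j - x i‖ = 0
  · rw [h]; simp
  · field_simp

theorem acc_contDiffAt (m : Fin 4 → ℝ) (a : Fin 4 → R3) (ha : ∀ i j, i ≠ j → a i ≠ a j) :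
    ContDiffAt ℝ 1 (acc m) a := by
  rw [contDiffAt_pi]
  intro i
  unfold acc
  refine ContDiffAt.sum fun j _ => ?_
  by_cases h : j = i
  · subst h
    have : (fun q : Fin 4 → R3 => (m j / ‖q j - q j‖ ^ 3) • (q j - q j)) = fun _ => 0 := by
      funext q; simp
    rw [this]
    exact contDiffAt_const
  · have hsub : ContDiffAt ℝ 1 (fun q : Fin 4 → R3 => q j - q i) a :=
      ((contDiff_apply ℝ R3 j).contDiffAt).sub ((contDiff_apply ℝ R3 i).contDiffAt)
    have hne : a j - a i ≠ 0 := sub_ne_zero.mpr (ha j i h)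
    have hs : ContDiffAt ℝ 1 (fun q : Fin 4 → R3 => m j / ‖q j - q i‖ ^ 3) a :=
      contDiffAt_const.div ((hsub.norm ℝ hne).pow 3) (pow_ne_zero 3 (norm_ne_zero_iff.mpr hne))
    exact hs.smul hsub

/-- determinant of the three difference vectors, by columns -/
def D (X Y Z : Fin 4 → ℝ) : ℝ :=
  (X 1 - X 0) * ((Y 2 - Y 0) * (Z 3 - Z 0) - (Y 3 - Y 0) * (Z 2 - Z 0))
  - (Y 1 - Y 0) * ((X 2 - X 0) * (Z 3 - Z 0) - (X 3 - X 0) * (Z 2 - Z 0))
  + (Z 1 - Z 0) * ((X 2 - X 0) * (Y 3 - Y 0) - (X 3 - X 0) * (Y 2 - Y 0))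

theorem D_cont : Continuous fun p : (Fin 4 → ℝ) × (Fin 4 → ℝ) × (Fin 4 → ℝ) =>
    D p.1 p.2.1 p.2.2 := by
  unfold D
  fun_prop

theorem D_tendsto {X Y Z : ℝ → Fin 4 → ℝ} {X0 Y0 Z0 : Fin 4 → ℝ}
    (hX : ∀ i, Tendsto (fun t => X t i) atTop (𝓝 (X0 i)))
    (hY : ∀ i, Tendsto (fun t => Y t i) atTop (𝓝 (Y0 i)))
    (hZ : ∀ i, Tendsto (fun t => Z t i) atTop (𝓝 (Z0 i))) :
    Tendsto (fun t => D (X t) (Y t) (Z t)) atTop (𝓝 (D X0 Y0 Z0)) := by
  have h : Tendsto (fun t => (X t, Y t, Z t)) atTop (𝓝 (X0, Y0, Z0)) :=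
    (tendsto_pi_nhds.mpr hX).prodMk_nhds
      ((tendsto_pi_nhds.mpr hY).prodMk_nhds (tendsto_pi_nhds.mpr hZ))
  exact (D_cont.tendsto (X0, Y0, Z0)).comp h

/-- the asymptotic velocities -/
def av (i : Fin 4) : ℝ := ((i : ℕ) : ℝ)

/-- linear algebra: choice of the transversal offsets -/
theorem choice (f : Fin 4 → ℝ) : ∃ (d κ : Fin 4 → ℝ) (β0 β1 β2 : ℝ),
    (∀ i, f i = β0 + β1 * av i + β2 * d i) ∧ D κ av d ≠ 0 := by
  by_cases h1 : f 0 - 2 * f 1 + f 2 = 0
  · by_cases h2 : f 1 - 2 * f 2 + f 3 = 0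
    · refine ⟨![1, 0, 0, 0], ![0, 1, 0, 0], f 0, f 1 - f 0, 0, ?_, ?_⟩
      · intro i
        fin_cases i
        · simp [av]
        · simp [av]
        · simp [av]; linarith
        · simp [av]; linarith
      · simp [D, av]; norm_num
    · refine ⟨f, ![1, 0, 0, 0], 0, 0, 1, fun i => by ring, ?_⟩
      simp only [D, av]
      simp
      intro h3
      apply h2
      linarith
  · refine ⟨f, ![0, 0, 0, 1], 0, 0, 1, fun i => by ring, ?_⟩
    simp only [D, av]
    simp
    intro h3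
    apply h1
    linarith

/-- vector with given coordinates -/
noncomputable def vec (x y z : ℝ) : R3 := !₂[x, y, z]

@[simp] theorem vec0 (x y z : ℝ) : vec x y z 0 = x := rfl
@[simp] theorem vec1 (x y z : ℝ) : vec x y z 1 = y := rfl
@[simp] theorem vec2 (x y z : ℝ) : vec x y z 2 = z := rfl

/-- asymptotic velocities along the first axis -/
noncomputable def aa (i : Fin 4) : R3 := vec (av i) 0 0

theorem av_inj {i j : Fin 4} (h : av i = av j) : i = j := by
  unfold av at h
  exact Fin.ext (by exact_mod_cast h)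

theorem aa_sub (i j : Fin 4) : aa j - aa i = vec (av j - av i) 0 0 := by
  ext k
  fin_cases k <;> simp [aa]

theorem norm_vec (x : ℝ) : ‖vec x 0 0‖ = |x| := by
  rw [EuclideanSpace.norm_eq, Fin.sum_univ_three]
  simp [Real.sqrt_sq_eq_abs]

theorem aa_dist {i j : Fin 4} (h : i ≠ j) : 1 ≤ ‖aa i - aa j‖ := by
  rw [aa_sub, norm_vec]
  unfold av
  have h1 : ((i : ℕ) : ℤ) ≠ ((j : ℕ) : ℤ) := by
    intro h2
    exact h (Fin.ext (by exact_mod_cast h2))
  have h2 : 1 ≤ |((i : ℕ) : ℤ) - ((j : ℕ) : ℤ)| := Int.one_le_abs (sub_ne_zero.mpr h1)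
  exact_mod_cast h2

/-- first coordinate of the acceleration at the asymptotic velocity configuration -/
noncomputable def fv (m : Fin 4 → ℝ) (i : Fin 4) : ℝ := acc m aa i 0

theorem acc_aa_1 (m : Fin 4 → ℝ) (i : Fin 4) : acc m aa i 1 = 0 := by
  unfold acc
  rw [WithLp.ofLp_sum, Finset.sum_apply]
  refine Finset.sum_eq_zero fun j _ => ?_
  rw [aa_sub]
  simp

theorem acc_aa_2 (m : Fin 4 → ℝ) (i : Fin 4) : acc m aa i 2 = 0 := by
  unfold acc
  rw [WithLp.ofLp_sum, Finset.sum_apply]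
  refine Finset.sum_eq_zero fun j _ => ?_
  rw [aa_sub]
  simp

theorem fv_eq (m : Fin 4 → ℝ) (i : Fin 4) :
    fv m i = ∑ j, (m j / ‖aa j - aa i‖ ^ 3) * (av j - av i) := by
  unfold fv acc
  rw [WithLp.ofLp_sum, Finset.sum_apply]
  refine Finset.sum_congr rfl fun j _ => ?_
  rw [aa_sub]
  simp

theorem rpow_half_tendsto (C : ℝ) :
    Tendsto (fun t : ℝ => C * t ^ (-(1 : ℝ) / 2)) atTop (𝓝 0) := by
  have h : Tendsto (fun t : ℝ => t ^ (-((1 : ℝ) / 2))) atTop (𝓝 0) :=
    tendsto_rpow_neg_atTop (by norm_num)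
  have h2 := h.const_mul C
  rw [mul_zero] at h2
  refine h2.congr fun t => ?_
  congr 2
  norm_num

theorem rpow_three_half_tendsto (C : ℝ) :
    Tendsto (fun t : ℝ => C * t ^ (-(3 : ℝ) / 2)) atTop (𝓝 0) := by
  have h : Tendsto (fun t : ℝ => t ^ (-((3 : ℝ) / 2))) atTop (𝓝 0) :=
    tendsto_rpow_neg_atTop (by norm_num)
  have h2 := h.const_mul C
  rw [mul_zero] at h2
  refine h2.congr fun t => ?_
  congr 2
  norm_num

theorem log_half_tendsto (C : ℝ) :
    Tendsto (fun t : ℝ => Real.log t * (C * t ^ (-(1 : ℝ) / 2))) atTop (𝓝 0) := by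
  have h := (isLittleO_log_rpow_atTop (r := (1 : ℝ) / 2) (by norm_num)).tendsto_div_nhds_zero
  have h2 := h.const_mul C
  rw [mul_zero] at h2
  refine h2.congr' ?_
  filter_upwards [eventually_gt_atTop 0] with t ht
  have : t ^ (-(1 : ℝ) / 2) = (t ^ ((1 : ℝ) / 2))⁻¹ := by
    rw [← Real.rpow_neg ht.le]; norm_num
  rw [this]
  ring

theorem coord_le (w : Fin 4 → R3) (i : Fin 4) (c : Fin 3) : |w i c| ≤ ‖w‖ := by
  have h1 : ‖w i c‖ ≤ ‖w i‖ := PiLp.norm_apply_le (w i) c
  exact h1.trans (norm_le_pi_norm w i)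

theorem coord_deriv (w : ℝ → Fin 4 → R3) (t : ℝ) (y' : Fin 4 → R3)
    (h : HasDerivAt w y' t) (i : Fin 4) (c : Fin 3) :
    HasDerivAt (fun t => w t i c) (y' i c) t := by
  have h1 : HasDerivAt (fun t => w t i) (y' i) t := (hasDerivAt_pi.mp h) i
  exact ((EuclideanSpace.proj c : R3 →L[ℝ] ℝ).hasFDerivAt).comp_hasDerivAt t h1

theorem main_asym (m : Fin 4 → ℝ) :
    ∃ (T D0 : ℝ) (q v : ℝ → Fin 4 → R3), D0 ≠ 0 ∧
      (∀ t, T < t → (∀ i j, i ≠ j → q t i ≠ q t j) ∧ HasDerivAt q (v t) t ∧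
        HasDerivAt v (acc m (q t)) t) ∧
      Tendsto (fun t => D (fun i => q t i 0) (fun i => q t i 1) (fun i => q t i 2)) atTop
        (𝓝 D0) := by
  obtain ⟨d, κ, β0, β1, β2, hf, hD⟩ := choice (fv m)
  have haa : ∀ i j : Fin 4, i ≠ j → aa i ≠ aa j := by
    intro i j hij h
    have := aa_dist hij
    rw [h, sub_self, norm_zero] at this
    norm_num at this
  obtain ⟨K, u, hu, hLip⟩ := (acc_contDiffAt m aa haa).exists_lipschitzOnWith
  obtain ⟨δ1, hδ1, hball⟩ := Metric.nhds_basis_closedBall.mem_iff.mp hu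
  set δ : ℝ := min δ1 (1 / 4) with hδdef
  have hδ : 0 < δ := lt_min hδ1 (by norm_num)
  have hLip' : LipschitzOnWith K (acc m) (Metric.closedBall aa δ) :=
    hLip.mono ((Metric.closedBall_subset_closedBall (min_le_left _ _)).trans hball)
  set k : Fin 4 → R3 := fun i => vec (κ i) (av i) (d i) with hk
  obtain ⟨T, C, hT, hC, w, y, hw, hy, hwb, hyb, hin⟩ :=
    Chazy.chazy (acc m) aa k δ hδ K hLip' (fun s hs x _ => acc_hom m s hs x)
  set q : ℝ → Fin 4 → R3 := fun t => t • aa + -(Real.log t) • acc m aa + k + w t with hq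
  set v : ℝ → Fin 4 → R3 := fun t => aa + -(t⁻¹) • acc m aa + y t with hv
  have hX : ∀ t i, q t i 0 = t * av i - Real.log t * fv m i + κ i + w t i 0 := by
    intro t i
    simp only [hq, hk, fv, Pi.add_apply, Pi.smul_apply, PiLp.add_apply, PiLp.smul_apply,
      smul_eq_mul, aa, vec0]
    ring
  have hY : ∀ t i, q t i 1 = av i + w t i 1 := by
    intro t i
    simp only [hq, hk, Pi.add_apply, Pi.smul_apply, PiLp.add_apply, PiLp.smul_apply,
      smul_eq_mul, acc_aa_1]
    simp [aa]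
  have hZ : ∀ t i, q t i 2 = d i + w t i 2 := by
    intro t i
    simp only [hq, hk, Pi.add_apply, Pi.smul_apply, PiLp.add_apply, PiLp.smul_apply,
      smul_eq_mul, acc_aa_2]
    simp [aa]
  -- w tends to zero
  have wlim : ∀ i c, Tendsto (fun t => w t i c) atTop (𝓝 0) := by
    intro i c
    refine squeeze_zero_norm' ?_ (rpow_half_tendsto C)
    filter_upwards [eventually_gt_atTop T] with t ht
    exact (coord_le (w t) i c).trans (hwb t ht)
  have ylim : ∀ i c, Tendsto (fun t => y t i c) atTop (𝓝 0) := by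
    intro i c
    refine squeeze_zero_norm' ?_ (rpow_three_half_tendsto C)
    filter_upwards [eventually_gt_atTop T] with t ht
    exact (coord_le (y t) i c).trans (hyb t ht)
  have lwlim : ∀ i c, Tendsto (fun t => Real.log t * w t i c) atTop (𝓝 0) := by
    intro i c
    refine squeeze_zero_norm' ?_ (log_half_tendsto C)
    filter_upwards [eventually_gt_atTop T, eventually_ge_atTop 1] with t ht ht1
    rw [norm_mul, Real.norm_of_nonneg (Real.log_nonneg ht1)]
    exact mul_le_mul_of_nonneg_left ((coord_le (w t) i c).trans (hwb t ht)) (Real.log_nonneg ht1)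
  -- rescaled configuration
  set x : ℝ → Fin 4 → R3 := fun t => aa + t⁻¹ • (-(Real.log t) • acc m aa + k + w t) with hx
  have hqx : ∀ t, T < t → q t = t • x t := by
    intro t ht
    have ht0 : t ≠ 0 := by linarith
    simp only [hq, hx]
    rw [smul_add, smul_smul, mul_inv_cancel₀ ht0, one_smul]
    abel
  have hxlim : Tendsto x atTop (𝓝 aa) := by
    have h1 : Tendsto (fun t : ℝ => t⁻¹ * Real.log t) atTop (𝓝 0) := by
      have := Real.isLittleO_log_id_atTop.tendsto_div_nhds_zero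
      refine this.congr fun t => ?_
      simp [div_eq_inv_mul]
    have h2 : Tendsto (fun t : ℝ => t⁻¹) atTop (𝓝 0) := tendsto_inv_atTop_zero
    have h3 : Tendsto w atTop (𝓝 0) := by
      refine squeeze_zero_norm' ?_ (rpow_half_tendsto C)
      filter_upwards [eventually_gt_atTop T] with t ht
      exact hwb t ht
    have h4 : Tendsto (fun t : ℝ => aa + (-(t⁻¹ * Real.log t) • acc m aa + t⁻¹ • k + t⁻¹ • w t))
        atTop (𝓝 (aa + (-(0 : ℝ) • acc m aa + (0 : ℝ) • k + (0 : ℝ) • (0 : Fin 4 → R3)))) :=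
      tendsto_const_nhds.add (((h1.neg.smul_const _).add (h2.smul_const _)).add (h2.smul h3))
    simp only [neg_zero, zero_smul, add_zero] at h4
    refine h4.congr fun t => ?_
    simp only [hx]
    rw [smul_add, smul_add, smul_smul]
    congr 4
    ring
  have hqv : ∀ t, T < t → HasDerivAt q (v t) t := by
    intro t ht
    have ht0 : t ≠ 0 := by linarith
    have h1 := ((((hasDerivAt_id t).smul_const aa).add
      (((Real.hasDerivAt_log ht0).neg).smul_const (acc m aa))).add_const k).add (hw t ht)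
    refine h1.congr_deriv ?_
    simp [hv]
  have hvv : ∀ t, T < t → HasDerivAt v (acc m (q t)) t := by
    intro t ht
    have ht0 : t ≠ 0 := by linarith
    have h1 := (((hasDerivAt_inv ht0).neg.smul_const (acc m aa)).const_add aa).add (hy t ht)
    refine h1.congr_deriv ?_
    simp only [hq]
    rw [neg_neg]
    abel
  have hacc : ∀ t, T < t → ∀ i, t ^ 3 * acc m (q t) i 1
      = ∑ j, (m j / ‖x t j - x t i‖ ^ 3) * (q t j 1 - q t i 1) := by
    intro t ht i
    have ht0 : 0 < t := by linarith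
    rw [hqx t ht, acc_hom m t ht0]
    simp only [Pi.smul_apply, PiLp.smul_apply, smul_eq_mul]
    have h1 : acc m (x t) i 1 = ∑ j, (m j / ‖x t j - x t i‖ ^ 3) * (x t j 1 - x t i 1) := by
      unfold acc
      rw [WithLp.ofLp_sum, Finset.sum_apply]
      refine Finset.sum_congr rfl fun j _ => ?_
      simp
    rw [h1, Finset.mul_sum, Finset.mul_sum]
    refine Finset.sum_congr rfl fun j _ => ?_
    field_simp
  have hacclim : ∀ i, Tendsto (fun t => t ^ 3 * acc m (q t) i 1) atTop (𝓝 (fv m i)) := by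
    intro i
    have h1 : Tendsto (fun t => ∑ j, (m j / ‖x t j - x t i‖ ^ 3) * (q t j 1 - q t i 1)) atTop
        (𝓝 (∑ j, (m j / ‖aa j - aa i‖ ^ 3) * (av j - av i))) := by
      refine tendsto_finset_sum _ fun j _ => ?_
      by_cases h : j = i
      · subst h; simp
      · have hxj : Tendsto (fun t => x t j - x t i) atTop (𝓝 (aa j - aa i)) :=
          ((tendsto_pi_nhds.mp hxlim) j).sub ((tendsto_pi_nhds.mp hxlim) i)
        have hne : ‖aa j - aa i‖ ^ 3 ≠ 0 :=
          pow_ne_zero 3 (norm_ne_zero_iff.mpr (sub_ne_zero.mpr (haa j i h)))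
        have h2 : Tendsto (fun t => m j / ‖x t j - x t i‖ ^ 3) atTop
            (𝓝 (m j / ‖aa j - aa i‖ ^ 3)) :=
          tendsto_const_nhds.div (hxj.norm.pow 3) hne
        refine h2.mul ?_
        have h3 : ∀ l, Tendsto (fun t => q t l 1) atTop (𝓝 (av l)) := by
          intro l
          have := (wlim l 1).const_add (av l)
          rw [add_zero] at this
          refine this.congr fun t => ?_
          rw [hY]
        exact (h3 j).sub (h3 i)
    rw [← fv_eq] at h1
    refine h1.congr' ?_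
    filter_upwards [eventually_gt_atTop T] with t ht
    rw [hacc t ht i]
  -- first correction of the second coordinate
  have twlim : ∀ i, Tendsto (fun t => t * w t i 1) atTop (𝓝 (fv m i / 2)) := by
    intro i
    have g1 : Tendsto (fun t : ℝ => -(t ^ 2)⁻¹) atTop (𝓝 0) := by
      have : Tendsto (fun t : ℝ => (t ^ 2)⁻¹) atTop (𝓝 0) :=
        (tendsto_pow_atTop (by norm_num)).inv_tendsto_atTop
      simpa using this.neg
    have s1 : Tendsto (fun t => y t i 1 / (-(t ^ 2)⁻¹)) atTop (𝓝 (fv m i / 2)) := by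
      refine HasDerivAt.lhopital_zero_atTop (f := fun t => y t i 1) (g := fun t => -(t ^ 2)⁻¹)
        (f' := fun t => acc m (q t) i 1) (g' := fun t => 2 * (t ^ 3)⁻¹) ?_ ?_ ?_ (ylim i 1) g1 ?_
      · filter_upwards [eventually_gt_atTop T] with t ht
        have h1 := coord_deriv y t _ (hy t ht) i 1
        refine h1.congr_deriv ?_
        simp [acc_aa_1, hq]
      · filter_upwards [eventually_gt_atTop T] with t ht
        have ht0 : t ≠ 0 := by linarith
        have h1 := ((hasDerivAt_pow 2 t).inv (pow_ne_zero 2 ht0)).neg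
        refine h1.congr_deriv ?_
        field_simp
        simp
        ring
      · filter_upwards [eventually_gt_atTop T] with t ht
        have ht0 : t ≠ 0 := by linarith
        positivity
      · have h1 := (hacclim i).div_const 2
        refine h1.congr' ?_
        filter_upwards [eventually_gt_atTop T] with t ht
        have ht0 : t ≠ 0 := by linarith
        field_simp
    have s2 : Tendsto (fun t => w t i 1 / t⁻¹) atTop (𝓝 (fv m i / 2)) := by
      refine HasDerivAt.lhopital_zero_atTop (f := fun t => w t i 1) (g := fun t => t⁻¹)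
        (f' := fun t => y t i 1) (g' := fun t => -(t ^ 2)⁻¹) ?_ ?_ ?_ (wlim i 1)
        tendsto_inv_atTop_zero s1
      · filter_upwards [eventually_gt_atTop T] with t ht
        exact coord_deriv w t _ (hw t ht) i 1
      · filter_upwards [eventually_gt_atTop T] with t ht
        have ht0 : t ≠ 0 := by linarith
        exact hasDerivAt_inv ht0
      · filter_upwards [eventually_gt_atTop T] with t ht
        have ht0 : t ≠ 0 := by linarith
        exact neg_ne_zero.mpr (inv_ne_zero (pow_ne_zero 2 ht0))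
    refine s2.congr' ?_
    filter_upwards [eventually_gt_atTop T] with t ht
    have ht0 : t ≠ 0 := by linarith
    field_simp
  refine ⟨T, D κ av d, q, v, hD, ?_, ?_⟩
  · intro t ht
    refine ⟨?_, hqv t ht, hvv t ht⟩
    intro i j hij heq
    have ht0 : 0 < t := by linarith
    have h1 := hin t ht
    rw [mem_closedBall_iff_norm] at h1
    have h2 : ∀ l, ‖x t l - aa l‖ ≤ 1 / 4 := by
      intro l
      have h3 : ‖(x t - aa) l‖ ≤ ‖x t - aa‖ := norm_le_pi_norm _ l
      exact h3.trans (h1.trans (min_le_right _ _))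
    have h4 : x t i = x t j := by
      rw [hqx t ht] at heq
      simp only [Pi.smul_apply] at heq
      exact smul_right_injective _ ht0.ne' heq
    have h5 := aa_dist hij
    have h6 : aa i - aa j = -(x t i - aa i) + (x t j - aa j) := by rw [h4]; abel
    have h7 : ‖aa i - aa j‖ ≤ 1 / 4 + 1 / 4 := by
      rw [h6]
      refine (norm_add_le _ _).trans ?_
      rw [norm_neg]
      exact add_le_add (h2 i) (h2 j)
    linarith
  · have key : ∀ t, T < t → D (fun i => q t i 0) (fun i => q t i 1) (fun i => q t i 2)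
        = D av (fun i => t * w t i 1) (fun i => d i + w t i 2)
          - β1 * D av (fun i => Real.log t * w t i 1) (fun i => d i + w t i 2)
          - β2 * D d (fun i => av i + w t i 1) (fun i => Real.log t * w t i 2)
          + D (fun i => κ i + w t i 0) (fun i => av i + w t i 1) (fun i => d i + w t i 2) := by
      intro t ht
      unfold D
      simp only [hX, hY, hZ, hf]
      ring
    have l1 : Tendsto (fun t => D av (fun i => t * w t i 1) (fun i => d i + w t i 2)) atTop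
        (𝓝 (D av (fun i => fv m i / 2) d)) := by
      refine D_tendsto (fun i => tendsto_const_nhds) (fun i => twlim i) (fun i => ?_)
      simpa using (wlim i 2).const_add (d i)
    have l2 : Tendsto (fun t => D av (fun i => Real.log t * w t i 1) (fun i => d i + w t i 2))
        atTop (𝓝 (D av (fun _ => 0) d)) := by
      refine D_tendsto (fun i => tendsto_const_nhds) (fun i => lwlim i 1) (fun i => ?_)
      simpa using (wlim i 2).const_add (d i)
    have l3 : Tendsto (fun t => D d (fun i => av i + w t i 1) (fun i => Real.log t * w t i 2))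
        atTop (𝓝 (D d av (fun _ => 0))) := by
      refine D_tendsto (fun i => tendsto_const_nhds) (fun i => ?_) (fun i => lwlim i 2)
      simpa using (wlim i 1).const_add (av i)
    have l4 : Tendsto (fun t => D (fun i => κ i + w t i 0) (fun i => av i + w t i 1)
        (fun i => d i + w t i 2)) atTop (𝓝 (D κ av d)) := by
      refine D_tendsto (fun i => ?_) (fun i => ?_) (fun i => ?_)
      · simpa using (wlim i 0).const_add (κ i)
      · simpa using (wlim i 1).const_add (av i)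
      · simpa using (wlim i 2).const_add (d i)
    have l5 := ((l1.sub (l2.const_mul β1)).sub (l3.const_mul β2)).add l4
    have e0 : D av (fun i => fv m i / 2) d - β1 * D av (fun _ => 0) d
        - β2 * D d av (fun _ => 0) + D κ av d = D κ av d := by
      have : D av (fun i => fv m i / 2) d = 0 := by
        unfold D
        simp only [hf]
        ring
      rw [this]
      unfold D
      ring
    rw [e0] at l5
    refine l5.congr' ?_
    filter_upwards [eventually_gt_atTop T] with t ht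
    exact (key t ht).symm

end Pool.Agent.Results.MP_32f877_an.BoundedVolume.Vol

end


namespace Pool.Agent.Results.MP_32f877_an.BoundedVolume

/-- Positions in space. -/
abbrev Space := EuclideanSpace ℝ (Fin 3)

/-- The volume of the tetrahedron with vertices `x 0, x 1, x 2, x 3`: one sixth of the absolute
value of the determinant of the three edge vectors at `x 0`. -/
noncomputable def tetraVolume (x : Fin 4 → Space) : ℝ :=
  (1 / 6) * |Matrix.det (Matrix.of fun i j : Fin 3 => x i.succ j - x 0 j)|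

theorem tetraVolume_eq (x : Fin 4 → Space) :
    tetraVolume x = (1 / 6) * |Pool.Agent.Results.MP_32f877_an.BoundedVolume.Vol.D (fun i => x i 0) (fun i => x i 1)
      (fun i => x i 2)| := by
  unfold tetraVolume Pool.Agent.Results.MP_32f877_an.BoundedVolume.Vol.D
  rw [Matrix.det_fin_three]
  simp only [Matrix.of_apply]
  congr 2
  have h0 : (0 : Fin 3).succ = (1 : Fin 4) := rfl
  have h1 : (1 : Fin 3).succ = (2 : Fin 4) := rfl
  have h2 : (2 : Fin 3).succ = (3 : Fin 4) := rfl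
  rw [h0, h1, h2]
  ring

/-- For all positive masses there is a solution of the spatial four-body problem, defined and
collision-free for all `t ≥ 0`, along which the volume of the tetrahedron stays between two
positive constants. -/
theorem result : ∀ m : Fin 4 → ℝ, (∀ i, 0 < m i) →
    ∃ (q v : Fin 4 → ℝ → Space) (c C : ℝ), 0 < c ∧ c ≤ C ∧
      ∀ t : ℝ, 0 ≤ t →
        (∀ i j : Fin 4, i ≠ j → q i t ≠ q j t) ∧
        (∀ i : Fin 4, HasDerivAt (q i) (v i t) t ∧
          HasDerivAt (v i)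
            (∑ j ∈ Finset.univ.erase i, (m j / ‖q j t - q i t‖ ^ 3) • (q j t - q i t)) t) ∧
        c ≤ tetraVolume (fun i => q i t) ∧ tetraVolume (fun i => q i t) ≤ C := by
  intro m _
  obtain ⟨T, D0, q, v, hD0, hsol, hlim⟩ := Pool.Agent.Results.MP_32f877_an.BoundedVolume.Vol.main_asym m
  have hvol : Filter.Tendsto (fun t => tetraVolume (q t)) Filter.atTop
      (nhds ((1 / 6) * |D0|)) := by
    have h1 := (hlim.abs).const_mul (1 / 6 : ℝ)
    refine h1.congr fun t => ?_
    rw [tetraVolume_eq]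
  have hpos : 0 < (1 / 6) * |D0| := by positivity
  have hev : ∀ᶠ t in Filter.atTop, (1 / 12) * |D0| < tetraVolume (q t) ∧
      tetraVolume (q t) < (1 / 3) * |D0| := by
    have h1 := hvol.eventually (lt_mem_nhds (show (1 / 12) * |D0| < (1 / 6) * |D0| by linarith))
    have h2 := hvol.eventually (gt_mem_nhds (show (1 / 6) * |D0| < (1 / 3) * |D0| by linarith))
    exact h1.and h2
  obtain ⟨T1, hT1⟩ := Filter.eventually_atTop.mp hev
  set S : ℝ := max T T1 + 1 with hS
  have hST : T < S := by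
    have : T ≤ max T T1 := le_max_left _ _
    linarith
  have hST1 : T1 ≤ S := by
    have : T1 ≤ max T T1 := le_max_right _ _
    linarith
  refine ⟨fun i t => q (t + S) i, fun i t => v (t + S) i, (1 / 12) * |D0|, (1 / 3) * |D0|,
    by positivity, by linarith, ?_⟩
  intro t ht
  have hTt : T < t + S := by linarith
  obtain ⟨h1, h2, h3⟩ := hsol (t + S) hTt
  refine ⟨h1, ?_, ?_, ?_⟩
  · intro i
    have h4 : HasDerivAt (fun t => q (t + S)) (v (t + S)) t := h2.comp_add_const t S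
    have h5 : HasDerivAt (fun t => v (t + S)) (Pool.Agent.Results.MP_32f877_an.BoundedVolume.Vol.acc m (q (t + S))) t :=
      h3.comp_add_const t S
    refine ⟨(hasDerivAt_pi.mp h4) i, ?_⟩
    refine ((hasDerivAt_pi.mp h5) i).congr_deriv ?_
    unfold Pool.Agent.Results.MP_32f877_an.BoundedVolume.Vol.acc
    rw [← Finset.add_sum_erase Finset.univ _ (Finset.mem_univ i)]
    simp
  · exact (hT1 (t + S) (by linarith)).1.le
  · exact (hT1 (t + S) (by linarith)).2.le

end Pool.Agent.Results.MP_32f877_an.BoundedVolume
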